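import Pool.Agent.Run7.h493.TS.Fib
import Pool.Agent.Run7.h493.TS.Gtk

/-!
MP_8d161d_ag, Q1: projective varieties whose function fields contain the roots of high order of the
quotients of at least `n + 2` Zariski-general forms, of any degrees, on an arbitrary projective
variety of dimension `n`. They are of general type, and Q1 is true for them.

Let `V` be a closed subset of the complex projective space `ℙ ^ M`, of dimension at most `n`; it may
be singular or reducible. Let `q ≥ n + 2`, and let `d_1, …, d_q` be positive integers of which at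
most `2 (q - n - 1)` are equal to one (for example: all `d_b ≥ 2`).

THEOREM. There are a nonzero polynomial `Φ` in the coefficients of `q` forms of degrees
`d_1, …, d_q`, and a number `m₀`, with the following property. Let `F_1, …, F_q` be forms of degrees
`d_1, …, d_q` such that `Φ (F) ≠ 0`, let `m ≥ m₀`, and let `X` be an irreducible closed subset of
`ℙ ^ N × V` (`N` is arbitrary), of positive dimension, with the function field `K` and the generic
point `(a, x)`, such that

* the projection from `X` to `V` is generically finite onto its image, and the image is not contained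
  in one of the hypersurfaces `F_b = 0`;
* the field `K` contains `m`-th roots of the rational functions `F_b ^ {d_c} / F_c ^ {d_b}`.

Then `X` is of general type, and there is a proper closed subset of `X` which contains the images of
all nonconstant holomorphic maps from the complex plane to `X`.

The image of `X` in `V` may be any closed subset of `V` which is not contained in one of the
hypersurfaces. The conditions are conditions on the function field of `X` only: `X` may be any
projective model, with any singularities, and the roots need not be regular functions on it. The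
numbers `m₀` and the polynomial `Φ` depend only on `V` and the degrees; they do not depend on `X`, `N`
and the dimension of `X`.

Example: for every irreducible closed subset `Z` of `V`, of positive dimension and not in one of the
hypersurfaces, and for every finite extension `K` of the field which arises from the field of rational
functions of `Z` by the adjunction of the `m`-th roots, all projective varieties `X` with the function
field `K` which have a morphism to `V` that is given by `K / ℂ (Z)` have this property.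

The proof. For the curves: such a curve, if it is not contained in the zeros of the forms and of the
denominators of the roots, meets the hypersurfaces `F_b = 0` with multiplicities which are zero or at
least `m / d_c` for some `c`. If it were not constant in `V`, its composition with the exponential
function would contradict the second main theorem, truncated to level one and with a constant which
depends only on `V` and the degrees (`Run7.h493.TS.tsm`); see also
`Pool.Agent.Results.MP_579abc_ag.TruncatedSecondMain`. For general type: the criterion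
`Pool.Agent.Run7.h789.RC.lgt_cover` is applied to the generic point.

The definitions `BiSet`, `BiHom`, `BiSet.Mem`, `BiSet.FunctionField`, `BiSet.EntireCurve`,
`BiSet.PseudoBrody` (`Pool/Agent/W602/Cov/RDefs.lean`) and `GeneralType` (`Pool/Agent/W602/GT/Defs.lean`)
are those of the starting hand-in `RamifiedCovers` for this problem.
-/

set_option autoImplicit false

namespace Pool.Agent.Results.MP_8d161d_ag.KummerCoversOfVarieties

open MvPolynomial
open Pool.Agent.W602.Cov.R (BiSet BiPoly BiHom)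
open Pool.Agent.W602.GT (GeneralType)

variable {M N n q : ℕ}

/-- The closed subset of `ℙ ^ M` given by the forms in `V` has dimension at most `n`: there are
`n + 1` linear forms without common zero on it. -/
def DimLE (V : Set (MvPolynomial (Fin (M + 1)) ℂ)) (n : ℕ) : Prop :=
  ∃ ℓ : Fin (n + 1) → MvPolynomial (Fin (M + 1)) ℂ, (∀ j, (ℓ j).IsHomogeneous 1) ∧
    ∀ y : Fin (M + 1) → ℂ, (∀ H ∈ V, eval y H = 0) → (∀ j, eval y (ℓ j) = 0) → y = 0

/-- The numerical condition. -/
def Degrees (n : ℕ) {q : ℕ} (d : Fin q → ℕ) : Prop :=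
  (∀ b, 1 ≤ d b) ∧ n + 2 ≤ q ∧ (Finset.univ.filter fun b => d b = 1).card ≤ 2 * (q - n - 1)

/-- The indices of the coefficients of `q` forms of degrees `d b` in `M + 1` variables. -/
abbrev Index (M : ℕ) {q : ℕ} (d : Fin q → ℕ) : Type :=
  (b : Fin q) × {β : Fin (M + 1) →₀ ℕ // β.degree = d b}

/-- `F` is a family of forms of degrees `d b`, and `Φ (F) ≠ 0`. -/
def General {d : Fin q → ℕ} (Φ : MvPolynomial (Index M d) ℂ)
    (F : Fin q → MvPolynomial (Fin (M + 1)) ℂ) : Prop :=
  (∀ b, (F b).IsHomogeneous (d b)) ∧ eval (fun s : Index M d => coeff s.2.1 (F s.1)) Φ ≠ 0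

/-- The field generated by the ratios of the coordinates of `x`: the function field of the image. -/
noncomputable def ratios {K : Type} [Field K] [Algebra ℂ K] (x : Fin (M + 1) → K) :
    IntermediateField ℂ K :=
  IntermediateField.adjoin ℂ {z | ∃ i j, x j ≠ 0 ∧ z = x i / x j}

/-- The field `K` contains `m`-th roots of the rational functions `F b ^ d c / F c ^ d b` at the point
`x`. -/
def ContainsRoots (d : Fin q → ℕ) (F : Fin q → MvPolynomial (Fin (M + 1)) ℂ) (m : ℕ) {K : Type}
    [Field K] [Algebra ℂ K] (x : Fin (M + 1) → K) : Prop :=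
  ∀ b c, ∃ ρ : K, ρ ^ m * aeval x (F c) ^ d b = aeval x (F b) ^ d c

section Proof

open Run7.h493.TS
open Filter Topology
open Run7.h493.PS (MultiHom)
open Pool.Agent.NH29.GN (Idx Mon fv val NoZero)
open Pool.Agent.Run7.h789.RC (Sys OnV)

theorem fv_eq {K : Type} [Field K] [Algebra ℂ K] {d : Fin q → ℕ}
    {F : Fin q → MvPolynomial (Fin (M + 1)) ℂ} (hF : ∀ b, (F b).IsHomogeneous (d b))
    (x : Fin (M + 1) → K) (b : Fin q) :
    fv (K := ℂ) (L := K) (fun s : Idx M d => coeff s.2.1 (F s.1)) x b = aeval x (F b) := by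
  classical
  rw [aeval_def]
  exact (Pool.Agent.NH29.GN.Stc.eval₂_form (algebraMap ℂ K) x (hF b)).symm

theorem hh_eq {d : Fin q → ℕ} {F : Fin q → MvPolynomial (Fin (M + 1)) ℂ}
    (hF : ∀ b, (F b).IsHomogeneous (d b)) (x : ℂ → Fin (M + 1) → ℂ) (b : Fin q) :
    hh (kt fun s : Idx M d => coeff s.2.1 (F s.1)) (fun i z => x z i) b =
      fun z => eval (x z) (F b) := by
  funext z
  exact fv_eq hF (x z) b

theorem diff_bi {u : ℂ → Fin (N + 1) → ℂ} {x : ℂ → Fin (M + 1) → ℂ}
    (hu : ∀ j, Differentiable ℂ fun z => u z j) (hx : ∀ j, Differentiable ℂ fun z => x z j)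
    (P : BiPoly N M) : Differentiable ℂ fun z => eval (Sum.elim (u z) (x z)) P := by
  induction P using MvPolynomial.induction_on with
  | C a => simp only [eval_C]; exact differentiable_const _
  | add P Q hP hQ => simp only [map_add]; exact hP.fun_add hQ
  | mul_X P i hP =>
    simp only [map_mul, eval_X]
    refine hP.fun_mul ?_
    rcases i with i | i
    · exact hu i
    · exact hx i

theorem diff_form {x : ℂ → Fin (M + 1) → ℂ} (hx : ∀ j, Differentiable ℂ fun z => x z j)
    (P : MvPolynomial (Fin (M + 1)) ℂ) : Differentiable ℂ fun z => eval (x z) P := by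
  induction P using MvPolynomial.induction_on with
  | C a => simp only [eval_C]; exact differentiable_const _
  | add P Q hP hQ => simp only [map_add]; exact hP.fun_add hQ
  | mul_X P i hP =>
    simp only [map_mul, eval_X]
    exact hP.fun_mul (hx i)

theorem freq {g : ℂ → ℂ} (hg : Differentiable ℂ g) (h : ∃ z, g z ≠ 0) (z : ℂ) :
    ∃ᶠ w in 𝓝[≠] z, g w ≠ 0 :=
  (Pool.Agent.TH143.EL.codis_ev (Run7.h493.TS.diff_ne hg h) z).frequently

/-- the degree in the second group of variables -/
theorem biHom_scale {P : BiPoly N M} {D D' : ℕ} (hP : BiHom P D D') (c : ℂ)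
    (u : Fin (N + 1) → ℂ) (v : Fin (M + 1) → ℂ) :
    eval (Sum.elim u (c • v)) P = c ^ D' * eval (Sum.elim u v) P := by
  rw [eval_eq', eval_eq', Finset.mul_sum]
  refine Finset.sum_congr rfl fun α hα => ?_
  have h1 := hP (mem_support_iff.1 hα)
  have h2 : ∑ j, α (Sum.inr j) = D' := by
    have h3 := congrArg Prod.snd h1
    rw [Finsupp.weight_apply, Finsupp.sum_fintype _ _ (by simp), Fintype.sum_sum_type] at h3
    simpa [Prod.snd_sum] using h3
  rw [Fintype.prod_sum_type, Fintype.prod_sum_type]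
  simp only [Sum.elim_inl, Sum.elim_inr, Pi.smul_apply, smul_eq_mul, mul_pow]
  rw [Finset.prod_mul_distrib, Finset.prod_pow_eq_pow_sum, h2]
  ring

theorem biHom_mul {P Q : BiPoly N M} {a b c e : ℕ} (hP : BiHom P a b) (hQ : BiHom Q c e) :
    BiHom (P * Q) (a + c) (b + e) :=
  IsWeightedHomogeneous.mul hP hQ

theorem biHom_pow {P : BiPoly N M} {a b : ℕ} (hP : BiHom P a b) (m : ℕ) :
    BiHom (P ^ m) (m * a) (m * b) := by
  have := IsWeightedHomogeneous.pow hP m
  exact this

theorem biHom_prod {J : Type} (s : Finset J) (P : J → BiPoly N M)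
    (hP : ∀ j ∈ s, ∃ a e, BiHom (P j) a e) : ∃ a e, BiHom (∏ j ∈ s, P j) a e := by
  classical
  induction s using Finset.induction_on with
  | empty =>
    refine ⟨0, 0, ?_⟩
    rw [Finset.prod_empty]
    exact isWeightedHomogeneous_one _ _
  | insert j s hj ih =>
    obtain ⟨a, e, h1⟩ := ih fun i hi => hP i (Finset.mem_insert_of_mem hi)
    obtain ⟨a', e', h3⟩ := hP j (Finset.mem_insert_self _ _)
    rw [Finset.prod_insert hj]
    exact ⟨a' + a, e' + e, biHom_mul h3 h1⟩

/-- the elements of the function field are quotients of bihomogeneous polynomials -/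
theorem frac {X : BiSet N M} {K : Type} [Field K] [Algebra ℂ K] {a : Fin (N + 1) → K}
    {x : Fin (M + 1) → K} (hF : X.FunctionField K a x) (ρ : K) :
    ∃ (R S : BiPoly N M) (D D' : ℕ), BiHom R D D' ∧ BiHom S D D' ∧
      aeval (Sum.elim a x) S ≠ 0 ∧ ρ * aeval (Sum.elim a x) S = aeval (Sum.elim a x) R := by
  have hρ : ρ ∈ IntermediateField.adjoin ℂ
      ({f | ∃ i j, a j ≠ 0 ∧ f = a i / a j} ∪ {f | ∃ i j, x j ≠ 0 ∧ f = x i / x j}) := by
    rw [hF.gen]
    exact IntermediateField.mem_top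
  induction hρ using IntermediateField.adjoin_induction with
  | mem f hf =>
    rcases hf with ⟨i, j, hj, rfl⟩ | ⟨i, j, hj, rfl⟩
    · refine ⟨MvPolynomial.X (Sum.inl i), MvPolynomial.X (Sum.inl j), 1, 0, isWeightedHomogeneous_X _ _ _,
        isWeightedHomogeneous_X _ _ _, ?_, ?_⟩
      · rwa [aeval_X, Sum.elim_inl]
      · rw [aeval_X, aeval_X, Sum.elim_inl, Sum.elim_inl, div_mul_cancel₀ _ hj]
    · refine ⟨MvPolynomial.X (Sum.inr i), MvPolynomial.X (Sum.inr j), 0, 1, isWeightedHomogeneous_X _ _ _,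
        isWeightedHomogeneous_X _ _ _, ?_, ?_⟩
      · rwa [aeval_X, Sum.elim_inr]
      · rw [aeval_X, aeval_X, Sum.elim_inr, Sum.elim_inr, div_mul_cancel₀ _ hj]
  | algebraMap c =>
    refine ⟨C c, 1, 0, 0, isWeightedHomogeneous_C _ _, isWeightedHomogeneous_one _ _, ?_, ?_⟩
    · rw [map_one]
      exact one_ne_zero
    · rw [map_one, mul_one, aeval_C]
  | add f g _ _ hf hg =>
    obtain ⟨R₁, S₁, D₁, D₁', h1, h2, h3, h4⟩ := hf
    obtain ⟨R₂, S₂, D₂, D₂', k1, k2, k3, k4⟩ := hg
    refine ⟨R₁ * S₂ + R₂ * S₁, S₁ * S₂, D₁ + D₂, D₁' + D₂', ?_, biHom_mul h2 k2, ?_, ?_⟩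
    · refine IsWeightedHomogeneous.add (biHom_mul h1 k2) ?_
      have := biHom_mul k1 h2
      rw [add_comm D₂, add_comm D₂'] at this
      exact this
    · rw [map_mul]
      exact mul_ne_zero h3 k3
    · rw [map_mul, map_add, map_mul, map_mul, ← h4, ← k4]
      ring
  | inv f _ hf =>
    obtain ⟨R₁, S₁, D₁, D₁', h1, h2, h3, h4⟩ := hf
    by_cases h0 : f = 0
    · refine ⟨0, S₁, D₁, D₁', isWeightedHomogeneous_zero _ _ _, h2, h3, ?_⟩
      rw [h0, inv_zero, zero_mul, map_zero]
    · refine ⟨S₁, R₁, D₁, D₁', h2, h1, ?_, ?_⟩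
      · rw [← h4]
        exact mul_ne_zero h0 h3
      · rw [← h4, inv_mul_cancel_left₀ h0]
  | mul f g _ _ hf hg =>
    obtain ⟨R₁, S₁, D₁, D₁', h1, h2, h3, h4⟩ := hf
    obtain ⟨R₂, S₂, D₂, D₂', k1, k2, k3, k4⟩ := hg
    refine ⟨R₁ * R₂, S₁ * S₂, D₁ + D₂, D₁' + D₂', biHom_mul h1 k1, biHom_mul h2 k2, ?_, ?_⟩
    · rw [map_mul]
      exact mul_ne_zero h3 k3
    · rw [map_mul, map_mul, ← h4, ← k4]
      ring

theorem aeval_lift {L : Type} [Field L] [Algebra ℂ L] (P : MvPolynomial (Fin (M + 1)) ℂ)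
    (u : Fin (N + 1) → L) (x : Fin (M + 1) → L) :
    aeval (Sum.elim u x) (rename Sum.inr P : BiPoly N M) = aeval x P := by
  rw [aeval_rename]
  rfl

theorem eval_lift (P : MvPolynomial (Fin (M + 1)) ℂ) (u : Fin (N + 1) → ℂ)
    (x : Fin (M + 1) → ℂ) : eval (Sum.elim u x) (rename Sum.inr P : BiPoly N M) = eval x P :=
  aeval_lift P u x

/-- the component in `V` is constant -/
theorem const_proj {V : Set (MvPolynomial (Fin (M + 1)) ℂ)} {d : Fin q → ℕ}
    (hd : ∀ b, 1 ≤ d b) {Φ : MvPolynomial (Idx M d) ℂ} (hΦ : AllNB ℂ V Φ) {m₀ : ℕ}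
    (hm₀ : ∀ t : Idx M d → ℂ, aeval t Φ ≠ 0 → ∀ f : Fin (M + 1) → ℂ → ℂ,
      (∀ i, Differentiable ℂ (f i)) → (∀ z, ∃ i, f i z ≠ 0) →
      (∀ z, ∀ H ∈ V, aeval (fun i => f i z) H = 0) →
      (∀ z, (∃ b, (∃ w, hh (kt t) f b w ≠ 0) ∧ hh (kt t) f b z = 0) →
        ∃ b, (∃ w, hh (kt t) f b w ≠ 0) ∧ (m₀ : ℕ∞) ≤ analyticOrderAt (hh (kt t) f b) z) →
      ∀ z w i j, f i z * f j w = f j z * f i w)
    {F : Fin q → MvPolynomial (Fin (M + 1)) ℂ} (hF : General Φ F) {m : ℕ}
    (hm : m₀ * ∑ b, d b ≤ m) {R S : Fin q → Fin q → BiPoly N M} {u : ℂ → Fin (N + 1) → ℂ}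
    {x : ℂ → Fin (M + 1) → ℂ} (hu : ∀ j, Differentiable ℂ fun z => u z j)
    (hx : ∀ j, Differentiable ℂ fun z => x z j) (hx0 : ∀ z, x z ≠ 0)
    (hV : ∀ z, ∀ H ∈ V, eval (x z) H = 0)
    (hR : ∀ b c z, eval (Sum.elim (u z) (x z)) (R b c) ^ m * eval (x z) (F c) ^ d b =
      eval (Sum.elim (u z) (x z)) (S b c) ^ m * eval (x z) (F b) ^ d c)
    (h1 : ∀ b, ∃ z, eval (x z) (F b) ≠ 0)
    (h2 : ∀ b c, ∃ z, eval (Sum.elim (u z) (x z)) (S b c) ≠ 0) (z w : ℂ) :
    ∃ c : ℂ, x z = c • x w := by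
  have h3 := hm₀ (fun s => coeff s.2.1 (F s.1)) hF.2 (fun i z => x z i)
    hx (fun z => Function.ne_iff.1 (hx0 z)) hV (fun z hz => by
      simp only [hh_eq hF.1] at hz ⊢
      obtain ⟨b, -, hbz⟩ := hz
      obtain ⟨c, hc⟩ : ∃ c, eval (x z) (F c) ≠ 0 := by
        by_contra hcon
        push Not at hcon
        apply hx0 z
        exact (hΦ ℂ _ hF.2).ncz (x z) (hV z) fun i => by
          rw [fv_eq hF.1]
          exact hcon i
      refine ⟨b, h1 b, ?_⟩
      have hle : m₀ * d c ≤ m := by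
        refine le_trans (Nat.mul_le_mul_left _ ?_) hm
        exact Finset.single_le_sum (f := d) (fun _ _ => Nat.zero_le _) (Finset.mem_univ c)
      exact order_ge (R := fun z => eval (Sum.elim (u z) (x z)) (R b c))
        (S := fun z => eval (Sum.elim (u z) (x z)) (S b c))
        (F := fun z => eval (x z) (F b)) (G := fun z => eval (x z) (F c))
        ((diff_bi hu hx _).analyticAt z) ((diff_bi hu hx _).analyticAt z)
        ((diff_form hx _).analyticAt z) ((diff_form hx _).analyticAt z)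
        (freq (diff_bi hu hx _) (h2 b c) z) (freq (diff_form hx _) (h1 b) z)
        (Eventually.of_forall fun w => hR b c w) hbz hc (hd c) hle)
  obtain ⟨j, hj⟩ := Function.ne_iff.1 (hx0 w)
  refine ⟨x z j / x w j, ?_⟩
  funext i
  have h4 := h3 z w i j
  have hj' : x w j ≠ 0 := hj
  rw [Pi.smul_apply, smul_eq_mul]
  field_simp
  linear_combination h4

/-- the curves -/
theorem pseudo {V : Set (MvPolynomial (Fin (M + 1)) ℂ)} {d : Fin q → ℕ}
    (hd : ∀ b, 1 ≤ d b) {Φ : MvPolynomial (Idx M d) ℂ} (hΦ : AllNB ℂ V Φ) {m₀ : ℕ}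
    (hm₀ : ∀ t : Idx M d → ℂ, aeval t Φ ≠ 0 → ∀ f : Fin (M + 1) → ℂ → ℂ,
      (∀ i, Differentiable ℂ (f i)) → (∀ z, ∃ i, f i z ≠ 0) →
      (∀ z, ∀ H ∈ V, aeval (fun i => f i z) H = 0) →
      (∀ z, (∃ b, (∃ w, hh (kt t) f b w ≠ 0) ∧ hh (kt t) f b z = 0) →
        ∃ b, (∃ w, hh (kt t) f b w ≠ 0) ∧ (m₀ : ℕ∞) ≤ analyticOrderAt (hh (kt t) f b) z) →
      ∀ z w i j, f i z * f j w = f j z * f i w)
    {F : Fin q → MvPolynomial (Fin (M + 1)) ℂ} (hF : General Φ F) {m : ℕ}
    (hm : m₀ * ∑ b, d b ≤ m) {X : BiSet N M}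
    (hXV : ∀ (u : Fin (N + 1) → ℂ) (v : Fin (M + 1) → ℂ), X.Mem u v → ∀ H ∈ V, eval v H = 0)
    {K : Type} [Field K] [Algebra ℂ K] {a : Fin (N + 1) → K} {x : Fin (M + 1) → K}
    (hK : X.FunctionField K a x) (halg : Algebra.IsAlgebraic (ratios x) K)
    (hne : ∀ b, aeval x (F b) ≠ 0) (hroot : ContainsRoots d F m x) : X.PseudoBrody := by
  classical
  choose Dg mm' c hrel using fun i j => Pool.Agent.TH152.HY.exists_rel hK halg i j
  choose ρ hρ using hroot
  choose R S D D' hRh hSh hS0 hRS using fun b c => frac hK (ρ b c)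
  obtain ⟨G₁, hG₁⟩ : ∃ G₁ : BiPoly N M, G₁ = ∏ p : Fin (N + 1) × Fin (N + 1),
      (rename Sum.inr (c p.1 p.2 (mm' p.1 p.2)) : BiPoly N M) := ⟨_, rfl⟩
  obtain ⟨G₂, hG₂⟩ : ∃ G₂ : BiPoly N M, G₂ = ∏ b, (rename Sum.inr (F b) : BiPoly N M) := ⟨_, rfl⟩
  obtain ⟨G₃, hG₃⟩ : ∃ G₃ : BiPoly N M, G₃ = ∏ p : Fin q × Fin q, S p.1 p.2 := ⟨_, rfl⟩
  obtain ⟨a₁, e₁, hp1⟩ := biHom_prod Finset.univ
    (fun p : Fin (N + 1) × Fin (N + 1) => (rename Sum.inr (c p.1 p.2 (mm' p.1 p.2)) : BiPoly N M))
    fun p _ => ⟨0, _, Pool.Agent.W602.Cov.R.biHom_rename ((hrel p.1 p.2).1.hom _ le_rfl)⟩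
  obtain ⟨a₂, e₂, hp2⟩ := biHom_prod Finset.univ (fun b => (rename Sum.inr (F b) : BiPoly N M))
    fun b _ => ⟨0, _, Pool.Agent.W602.Cov.R.biHom_rename (hF.1 b)⟩
  obtain ⟨a₃, e₃, hp3⟩ := biHom_prod Finset.univ (fun p : Fin q × Fin q => S p.1 p.2)
    fun p _ => ⟨_, _, hSh p.1 p.2⟩
  rw [← hG₁] at hp1
  rw [← hG₂] at hp2
  rw [← hG₃] at hp3
  have hGh := biHom_mul hp1 (biHom_mul hp2 hp3)
  -- the relations on `X`
  have hrelX : ∀ b c u v, X.Mem u v → eval (Sum.elim u v) (R b c) ^ m * eval v (F c) ^ d b =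
      eval (Sum.elim u v) (S b c) ^ m * eval v (F b) ^ d c := by
    intro b c u v huv
    obtain ⟨P, hP⟩ : ∃ P : BiPoly N M, P = R b c ^ m * rename Sum.inr (F c) ^ d b -
      S b c ^ m * rename Sum.inr (F b) ^ d c := ⟨_, rfl⟩
    have h1 : BiHom (R b c ^ m * (rename Sum.inr (F c) : BiPoly N M) ^ d b)
        (m * D b c + d b * 0) (m * D' b c + d b * d c) :=
      biHom_mul (biHom_pow (hRh b c) m)
        (biHom_pow (Pool.Agent.W602.Cov.R.biHom_rename (hF.1 c)) (d b))
    have h2 : BiHom (S b c ^ m * (rename Sum.inr (F b) : BiPoly N M) ^ d c)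
        (m * D b c + d b * 0) (m * D' b c + d b * d c) := by
      have := biHom_mul (biHom_pow (hSh b c) m)
        (biHom_pow (Pool.Agent.W602.Cov.R.biHom_rename (N := N) (hF.1 b)) (d c))
      rw [mul_zero] at this ⊢
      rw [mul_comm (d b) (d c)]
      exact this
    have h3 : BiHom P (m * D b c + d b * 0) (m * D' b c + d b * d c) := by
      rw [hP]
      exact IsWeightedHomogeneous.sub h1 h2
    have h4 : aeval (Sum.elim a x) P = 0 := by
      rw [hP, map_sub, map_mul, map_mul, map_pow, map_pow, map_pow, map_pow, aeval_lift,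
        aeval_lift, ← hRS b c, mul_pow]
      linear_combination aeval (Sum.elim a x) (S b c) ^ m * hρ b c
    have h5 := (hK.van P _ _ h3).1 h4 u v huv
    rw [hP, map_sub, map_mul, map_mul, map_pow, map_pow, map_pow, map_pow, eval_lift,
      eval_lift] at h5
    exact sub_eq_zero.1 h5
  refine ⟨G₁ * (G₂ * G₃), _, _, hGh, ?_, fun u v huv => ?_⟩
  · by_contra hcon
    push Not at hcon
    have h1 := (hK.van _ _ _ hGh).2 hcon
    rw [map_mul, map_mul, hG₁, hG₂, hG₃, map_prod, map_prod, map_prod] at h1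
    refine absurd h1 (mul_ne_zero ?_ (mul_ne_zero ?_ ?_))
    · refine Finset.prod_ne_zero_iff.2 fun p _ => ?_
      rw [aeval_lift]
      exact (hrel p.1 p.2).2
    · refine Finset.prod_ne_zero_iff.2 fun b _ => ?_
      rw [aeval_lift]
      exact hne b
    · exact Finset.prod_ne_zero_iff.2 fun p _ => hS0 p.1 p.2
  · by_contra hall
    push Not at hall
    obtain ⟨z₀, hz₀⟩ := hall
    rw [map_mul, map_mul, hG₁, hG₂, hG₃, map_prod, map_prod, map_prod] at hz₀
    have hz1 := left_ne_zero_of_mul hz₀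
    have hz2 := left_ne_zero_of_mul (right_ne_zero_of_mul hz₀)
    have hz3 := right_ne_zero_of_mul (right_ne_zero_of_mul hz₀)
    have hv : ∀ z w, ∃ c : ℂ, v z = c • v w := const_proj hd hΦ hm₀ hF hm (R := R) (S := S)
      huv.diffu huv.diffv (fun z => (huv.mem z).2.1) (fun z => hXV _ _ (huv.mem z))
      (fun b c z => hrelX b c _ _ (huv.mem z))
      (fun b => ⟨z₀, by
        have := Finset.prod_ne_zero_iff.1 hz2 b (Finset.mem_univ b)
        rwa [eval_lift] at this⟩)
      fun b c => ⟨z₀, Finset.prod_ne_zero_iff.1 hz3 (b, c) (Finset.mem_univ _)⟩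
    obtain ⟨T, hT⟩ := Pool.Agent.TH152.HY.fib_finite (fun i j => (hrel i j).1) (v := v z₀)
      fun i j => by
        have := Finset.prod_ne_zero_iff.1 hz1 (i, j) (Finset.mem_univ _)
        rwa [eval_lift] at this
    choose s hs using fun z => hv z z₀
    have hs0 : ∀ z, s z ≠ 0 := fun z h => (huv.mem z).2.1 (by rw [hs z, h, zero_smul])
    have hmem : ∀ z, X.Mem (u z) (v z₀) := by
      intro z
      refine ⟨(huv.mem z).1, (huv.mem z₀).2.1, fun P hP => ?_⟩
      obtain ⟨D₁, D₂, hD⟩ := X.hom P hP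
      have h1 := biHom_scale hD (s z) (u z) (v z₀)
      rw [← hs z] at h1
      have h2 : eval (Sum.elim (u z) (v z)) P = 0 := (huv.mem z).2.2 P hP
      rw [h2] at h1
      exact (mul_eq_zero.1 h1.symm).resolve_left (pow_ne_zero _ (hs0 z))
    have hcu := Run7.h493.TS.const_or (g := fun _ => 1) (differentiable_pi.2 huv.diffu)
      (fun z => (huv.mem z).1) (differentiable_const _) T.finite_toSet
      (fun z _ => hT (u z) (hmem z))
    rcases hcu with h | h
    · exact absurd (h 0) one_ne_zero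
    · obtain ⟨z, z', hzz⟩ := huv.nonconst
      exact hzz ⟨h z' z, hv z' z⟩

end Proof

/-- Let `V` be a closed subset of the projective space `ℙ ^ M`, of dimension at most `n`, and let
`d b` be degrees which satisfy the numerical condition. There are a number `m₀` and a nonzero
polynomial `Φ` such that for all forms `F b` of degrees `d b` with `Φ (F) ≠ 0`, all `m ≥ m₀`, and all
irreducible closed subsets `X` of `ℙ ^ N × V`, of dimension `w > 0`, with function field `K` and
generic point `(a, x)`: if `X` is generically finite over its image in `V`, the image is not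
contained in a hypersurface `F b = 0`, and `K` contains `m`-th roots of the rational functions
`F b ^ d c / F c ^ d b`, then `X` is of general type, and all nonconstant entire curves in `X` lie in
a proper closed subset of `X`. -/
theorem result (V : Set (MvPolynomial (Fin (M + 1)) ℂ)) (hV : ∀ H ∈ V, ∃ e, H.IsHomogeneous e)
    (hn : DimLE V n) (d : Fin q → ℕ) (hd : Degrees n d) :
    ∃ (m₀ : ℕ) (Φ : MvPolynomial (Index M d) ℂ), Φ ≠ 0 ∧
      ∀ F : Fin q → MvPolynomial (Fin (M + 1)) ℂ, General Φ F → ∀ m, m₀ ≤ m →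
      ∀ (N : ℕ) (X : BiSet N M),
        (∀ (u : Fin (N + 1) → ℂ) (v : Fin (M + 1) → ℂ), X.Mem u v → ∀ H ∈ V, eval v H = 0) →
      ∀ (K : Type) [Field K] [Algebra ℂ K] (a : Fin (N + 1) → K) (x : Fin (M + 1) → K) (w : ℕ),
        X.FunctionField K a x → Algebra.IsAlgebraic (ratios x) K → Algebra.trdeg ℂ K = w →
        0 < w → (∀ b, aeval x (F b) ≠ 0) → ContainsRoots d F m x →
          GeneralType ℂ K w ∧ X.PseudoBrody := by
  classical
  obtain ⟨ℓ, hℓ, hZ⟩ := hn
  have hN : Pool.Agent.NH29.GN.NoZero V ℓ := Pool.Agent.NH29.GN.Fn.noZero_of_points (K := ℂ) hZ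
  obtain ⟨hd1, hd2, hd3⟩ := hd
  have hnum : ∀ C : Finset (Fin q), C ≠ Finset.univ → Pool.Agent.NH29.GN.Num2 n d C :=
    fun C hC => Pool.Agent.NH29.GN.Fn.num_of_few hd1 hd2 (by omega) C hC
  obtain ⟨r, rfl⟩ : ∃ r, q = r + 1 := ⟨q - 1, by omega⟩
  obtain ⟨Φ₀, h1, h2⟩ := Run7.h493.TS.exists_allNB ℂ hV hℓ hN hd1 (by omega) hnum
  obtain ⟨Φ₁, mm, hΦ₁, hmm, hAll⟩ := Run7.h493.TS.exists_multi h1 h2
  obtain ⟨m₁, hm₁⟩ := Run7.h493.TS.orb hmm hAll
  obtain ⟨B, ι, Φ₂, hΦ₂, hsys⟩ := Pool.Agent.Run7.h789.RC.exists_sys (d := d) hV hℓ hN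
    (by omega) hd1 hnum
  refine ⟨(m₁ + Run7.h34.UG.mm r B) * ∑ b, d b, Φ₁ * Φ₂, mul_ne_zero hΦ₁ hΦ₂,
    fun F hF m hm N X hXV K _ _ a x w hK halg htr hw hne hroot => ⟨?_, ?_⟩⟩
  · have hF2 : eval (fun s : Index M d => coeff s.2.1 (F s.1)) Φ₂ ≠ 0 := by
      have := hF.2
      rw [map_mul] at this
      exact right_ne_zero_of_mul this
    obtain ⟨F', S⟩ := hsys (fun s => coeff s.2.1 (F s.1)) hF2
    refine Run7.h493.TS.gt_of_roots S hK.mem.2.1
      (Pool.Agent.Run7.h789.RC.onV_of hXV hK.mem) hw htr halg (m := m)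
      (le_trans (Nat.mul_le_mul_right _ (Nat.le_add_left _ _)) hm) fun b c => ?_
    simp only [fv_eq hF.1]
    exact hroot b c
  · have hF1 : General Φ₁ F := ⟨hF.1, by
      have := hF.2
      rw [map_mul] at this
      exact left_ne_zero_of_mul this⟩
    exact pseudo hd1 hAll hm₁ hF1 (le_trans (Nat.mul_le_mul_right _ (Nat.le_add_right _ _)) hm)
      hXV hK halg hne hroot

end Pool.Agent.Results.MP_8d161d_ag.KummerCoversOfVarieties
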