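import Pool.Agent.Run7.h718.NE.Thm

/-!
# Entire curves which satisfy a rational `q`-difference equation of any order

This is helper718's theorem `MP_2a5ae2_ag.NonlinearDifferenceCurves`, stated for the
Green-Griffiths-Lang conjecture: an entire curve which satisfies a rational `q`-difference equation
is not Zariski dense in a variety of general type. The proof is in `Pool.Agent.Run7.h718.NE`.

`X` is a projective variety with function field `K`, of dimension `w`, `f` is a Zariski-dense entire
curve in `X`, and `q ≠ 0` is not a root of unity. Assume that `f (q ^ m z)` is a rational function of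
`f z`, `f (q z)`, ..., `f (q ^ (m - 1) z)`, with coefficients which are polynomials in entire
functions `c 1, ..., c l` such that the `c i (q z)` are rational functions of the `c j z`; for
example polynomials in `z`, of any order `m`.

* If `θ ≠ 0` and `r θ` are regular covariant tensors of any rank on `X` (sections of a tensor power of
  the cotangent bundle of the smooth models), then `r` is, along `f`, a rational function of `z`.
* Thus a line subsheaf of a tensor power of the cotangent bundle has Kodaira dimension at most one.
* The varieties dominated by `X` have Kodaira dimension at most one.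
* `X` is special in the sense of Campana, and in particular it is not of general type.
-/

set_option autoImplicit false

open FF MvPolynomial Pool.Agent.W602.GT Pool.Agent.TH143.GT Pool.Agent.W603.BPR Pool.Agent.W603.BP
open Pool.Agent.Run7.h718.ND (RationalAlong)
open Pool.Agent.Run7.h718.NE

/-- **Rational `q`-difference equations.** -/
theorem Pool.Agent.Results.MP_8d161d_ag.NonlinearDifferenceCurves.result {n w : ℕ}
    {p : Ideal (MvPolynomial (Fin (n + 1)) ℂ)} {K : Type} [Field K] [Algebra ℂ K]
    {y : Fin (n + 1) → K} (hy : FunField p 1 K w y) {f : ℂ → Fin (n + 1) → ℂ}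
    (hf : EntireCurve p 1 f) (hd : ZDense p f Set.univ) {q : ℂ} (hq0 : q ≠ 0)
    (hq : ∀ k : ℕ, 0 < k → q ^ k ≠ 1) {m : ℕ} (hDE : DiffEq q m f) :
    (∀ (M : ℕ) (θ : MultilinearMap K (fun _ : Fin M => Derivation ℂ K K) K) (r : K),
      θ ≠ 0 → RegTensor w θ → RegTensor w (r • θ) → RationalAlong y f r) ∧
    (∀ (M : ℕ) (θ : MultilinearMap K (fun _ : Fin M => Derivation ℂ K K) K) (r : Fin 2 → K),
      θ ≠ 0 → RegTensor w θ → (∀ i, RegTensor w (r i • θ)) → ¬ AlgebraicIndependent ℂ r) ∧
    (∀ (L : Type) [Field L] [Algebra ℂ L] [Algebra.EssFiniteType ℂ L] (_ : L →ₐ[ℂ] K) (u : ℕ),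
      Algebra.trdeg ℂ L = u → ¬ KodGe ℂ L u (fun _ => False) 2) ∧
    Special K w ∧ ¬ GeneralType ℂ K w :=
  curve_main hy hf hd hq0 hq hDE
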