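import Pool.Agent.Run7.h718.AF.Fin
import Pool.Agent.Run7.h718.PN.Thm

/-!
# Entire curves which satisfy a functional equation with a polynomial substitution

`X` is a projective variety, with function field `K`, of dimension `w`, and `f` is a Zariski-dense
entire curve in `X`. Let `s` be a nonconstant polynomial, no iterate `s^k` of which is the identity,
and assume that `f (s^m (z))` is a rational function of `f z`, `f (s (z))`, ..., `f (s^{m - 1} (z))`,
with coefficients which are polynomials in entire functions `c 1, ..., c l` such that the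
`c i (s (z))` are rational functions of the `c j z`; for example polynomials in `z`, of any order `m`
(`FunEq`). Then

* let `θ ≠ 0` and `r_j θ` be regular sections of a tensor power of `Ω ^ 1`, for example
  pluricanonical forms. Then all the `r_j` are, along `f`, rational functions of `z`, or
  `s (z) = z + b` is a translation, and the variety with the function field `ℂ (r_1, ..., r_N)`, the
  image of `X` under `(1 : r_1 : ... : r_N)`, is covered by rational curves, or all the `r_j` are
  periodic along `f`, with the period `k b` for some `k > 0`, and the homogeneous coordinates of `f`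
  are not all of exponential type;
* if `X` is of general type, then `s (z) = z + b` is a translation, and `f (z + k b) = f z` for some
  `k > 0`; all these `b`, for all equations which `f` satisfies, are rational multiples of one
  number, and the homogeneous coordinates of `f` are not all of exponential type.
-/

set_option autoImplicit false

open FF MvPolynomial Pool.Agent.W602.GT Pool.Agent.TH143.GT Pool.Agent.W603.BPR Pool.Agent.W603.BP
open Pool.Agent.Run7.h718.ND (RationalAlong)
open Pool.Agent.Run7.h718.NE (RegTensor)
open Pool.Agent.Run7.h718.SP (FunEq)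
open Pool.Agent.Run7.h718.AF (ExpType)
open Pool.Agent.Run7.h718.PN (PeriodicAlong)

/-- **Functional equations with a polynomial substitution.** -/
theorem Pool.Agent.Results.MP_8d161d_ag.PolynomialSubstitutions.result {n w : ℕ}
    {p : Ideal (MvPolynomial (Fin (n + 1)) ℂ)} {K : Type} [Field K] [Algebra ℂ K]
    {y : Fin (n + 1) → K} (hy : FunField p 1 K w y) {f : ℂ → Fin (n + 1) → ℂ}
    (hf : EntireCurve p 1 f) (hd : ZDense p f Set.univ) :
    (∀ (s : Polynomial ℂ) (m : ℕ), 0 < s.natDegree →
      (∀ k, 0 < k → ∃ z, (fun x => s.eval x)^[k] z ≠ z) → FunEq s m f →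
      ∀ (M N : ℕ) (θ : MultilinearMap K (fun _ : Fin M => Derivation ℂ K K) K) (r : Fin N → K),
        θ ≠ 0 → RegTensor w θ → (∀ j, RegTensor w (r j • θ)) →
        (∀ j, RationalAlong y f (r j)) ∨
          ∃ b : ℂ, s = Polynomial.X + Polynomial.C b ∧
            (Covered (IntermediateField.adjoin ℂ (Set.range r)) ∨
              (∃ k : ℕ, 0 < k ∧ ∀ j, PeriodicAlong y f (k * b) (r j)) ∧
                ¬ ∀ j, ExpType fun z => f z j)) ∧
    (GeneralType ℂ K w → ∃ c : ℂ, ∀ (s : Polynomial ℂ) (m : ℕ), 0 < s.natDegree →
      (∀ k, 0 < k → ∃ z, (fun x => s.eval x)^[k] z ≠ z) → FunEq s m f →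
      (∃ b : ℂ, s = Polynomial.X + Polynomial.C b ∧ (∃ q : ℚ, b = q * c) ∧
        ∃ k : ℕ, 0 < k ∧ ∀ z, ∃ u : ℂ, f (z + k * b) = u • f z) ∧
      ¬ ∀ j, ExpType fun z => f z j) :=
  ⟨fun _ _ hs hinf hE _ _ _ _ h0 hθ hr =>
    Pool.Agent.Run7.h718.PN.pencil_exp hy hf hd hs hinf hE h0 hθ hr,
    fun hgt => Pool.Agent.Run7.h718.AF.fin_main hy hf hd hgt⟩
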