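import Pool.Agent.Run7.h418.E.Thm

/-!
MP_8d161d_ag, Q1: entire curves in varieties of general type which are contained in a projective
variety with symmetric differentials: an immersive family, or a family which generates a symmetric
power of the cotangent sheaf.

This puts together, for the present problem, `MP_2a5ae2_ag.GreenGriffithsLang` and
`MP_2a5ae2_ag.BrodyCurvesAndTori` (this run), with the modules `Run7/h418`.
-/

set_option autoImplicit false

open Pool.Agent.W602.GT Pool.Agent.N155 Pool.Agent.TH182.TC Run7.h418 Run7.h418.Z

namespace Pool.Agent.Results.MP_8d161d_ag.SymmetricDifferentials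

/-- Let `X = {F = 0}` be a complex projective variety, and let `V` be a closed subvariety of `X` of
general type (function field `K`, generic point `y`, dimension `w > 0`); for example `V = X`, if `X`
is irreducible and of general type.

(1) If finitely many symmetric differentials of degree `d > 0` generate `Sᵈ Ω` on `X`, then there is a
proper closed subset of `V` which contains the images of all nonconstant holomorphic maps from the
complex plane to `V`. Conversely, a closed subvariety of `X` of positive dimension with this property
is of general type.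

(2) If `X` only has an immersive finite family of symmetric differentials `σ j` of positive degrees
`m j`, then every nonconstant holomorphic map from the complex plane to `V` is contained in a proper
closed subset of `V`; one proper closed subset of `V` contains all those of bounded derivative.
Moreover, if `p` is any nonconstant holomorphic map from the complex plane to `X`, then the Zariski
closure `Y` of `p` is of positive dimension and not of general type; if `p` is of bounded derivative,
then there is a holomorphic immersion `g` of a complex torus of dimension `dim Y` into `Y`, such that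
`p z = g (z d)` for some vector `d`. -/
theorem result {n : ℕ} {ι κ : Type} [Fintype κ] {F : ι → MvPolynomial (Fin (n + 1)) ℂ}
    (hF : ∀ i, IsForm (F i)) {σ : κ → (Fin (n + 1) → ℂ) → (Fin (n + 1) → ℂ) → ℂ}
    {K : Type} [Field K] [Algebra ℂ K] {w : ℕ} {y : Fin (n + 1) → K} (hw : 0 < w)
    (hy : SubVar F K w y) :
    (∀ d : ℕ, 0 < d → (∀ j, SymForm F d (σ j)) → Generates F d σ →
      (GeneralType ℂ K w ↔ PseudoBrody y)) ∧
    ∀ m : κ → ℕ, (∀ j, 0 < m j) → (∀ j, SymForm F (m j) (σ j)) → Immersive F σ →
      (GeneralType ℂ K w → PseudoBounded y ∧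
        ∀ p : ℂ → PS n, HolMap p → (∀ z, (p z).rep ∈ VarPts ℂ y) → (∃ z w, p z ≠ p w) →
          ∃ G : MvPolynomial (Fin (n + 1)) ℂ, IsForm G ∧ val y G ≠ 0 ∧ Van p G) ∧
      ∀ p : ℂ → PS n, HolMap p → (∀ z, (p z).rep ∈ Cone F) → (∃ z w, p z ≠ p w) →
        (∃ (K' : Type) (_ : Field K') (_ : Algebra ℂ K') (w' : ℕ) (y' : Fin (n + 1) → K'),
          IsClosure F p K' w' y') ∧
        ∀ (K' : Type) [Field K'] [Algebra ℂ K'] (w' : ℕ) (y' : Fin (n + 1) → K'),
          IsClosure F p K' w' y' → 0 < w' ∧ ¬ GeneralType ℂ K' w' ∧
            (BoundedDer p → InTorus F p w') := by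
  refine ⟨fun d hd hσ hgen => E.thm_iff hF hd hσ hgen hw hy, fun m hm hσ him =>
    ⟨fun hgt => ⟨U.uniform hF hm hσ him hy hgt, fun p hp hpV hne =>
      E.thm_van hF hm hσ him hy hgt hp hpV hne⟩, fun p hp hpF hne => ?_⟩⟩
  obtain ⟨h1, h2⟩ := E.thm_closure hF hm hσ him hp hpF hne
  refine ⟨h1, fun K' _ _ w' y' hcl => ⟨(h2 K' w' y' hcl).1, (h2 K' w' y' hcl).2, fun hb => ?_⟩⟩
  obtain ⟨v, _, hv, _, h4⟩ := thm_torus hF hm hσ him hp hpF hb hne
  exact (h4 K' w' y' hcl).1 ▸ hv

end Pool.Agent.Results.MP_8d161d_ag.SymmetricDifferentials
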